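import Pool.Agent.K3h63.QC.MainD

set_option autoImplicit false

/-!
The excluded four-vertex states, as Boolean functions of the four classes and of the indicators of the
four triples.
-/

namespace Pool.Agent.K3h63.QC

/-- 1 if the two numbers are equal, else 0. -/
def eqn (a b : ℕ) : ℕ :=
  match Nat.beq a b with
  | true => 1
  | false => 0

/-- The number of pairs of equal numbers: 1, 2, 3, 6 for the class patterns 2+1+1, 2+2, 3+1, 4. -/
def co (x y u w : ℕ) : ℕ :=
  Nat.add (Nat.add (Nat.add (eqn x y) (eqn x u)) (Nat.add (eqn x w) (eqn y u)))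
    (Nat.add (eqn y w) (eqn u w))

/-- The indicator of a triple if its classes are not all equal. -/
def mixT (a b d e : ℕ) : ℕ := Nat.mul e (Nat.sub 1 (Nat.mul (eqn a b) (eqn b d)))

def sum4 (b1 b2 b3 b4 : ℕ) : ℕ := Nat.add (Nat.add b1 b2) (Nat.add b3 b4)

/-- The four vertices meet all three classes and span exactly two edges. -/
def badA (x y u w b1 b2 b3 b4 : ℕ) : Bool :=
  Nat.beq (co x y u w) 1 && Nat.beq (sum4 b1 b2 b3 b4) 2

/-- Two vertices in each of two classes, exactly three edges. -/
def badB (x y u w b1 b2 b3 b4 : ℕ) : Bool :=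
  Nat.beq (co x y u w) 2 && Nat.beq (sum4 b1 b2 b3 b4) 3

/-- At least three vertices in a common class, exactly two edges. -/
def badC (x y u w b1 b2 b3 b4 : ℕ) : Bool :=
  Nat.ble 3 (co x y u w) && Nat.beq (sum4 b1 b2 b3 b4) 2

/-- Exactly three vertices in a common class and exactly two edges, or all four vertices in a common
class and exactly three edges. -/
def badD (x y u w b1 b2 b3 b4 : ℕ) : Bool :=
  (Nat.beq (co x y u w) 3 && Nat.beq (sum4 b1 b2 b3 b4) 2) ||
    (Nat.beq (co x y u w) 6 && Nat.beq (sum4 b1 b2 b3 b4) 3)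

/-- Exactly three vertices in a common class, and exactly two of the edges meet two classes. -/
def badE (x y u w b1 b2 b3 b4 : ℕ) : Bool :=
  Nat.beq (co x y u w) 3 &&
    Nat.beq (sum4 (mixT x y u b1) (mixT x y w b2) (mixT x u w b3) (mixT y u w b4)) 2

end Pool.Agent.K3h63.QC
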