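import Pool.Agent.K3h63.QC.MainD
import Pool.Agent.K3h63.QC.F1Data

set_option autoImplicit false

namespace Pool.Agent.K3h63.QC.F1

open Pool.Agent.Y439.Col Pool.Agent.R81.TC Pool.Agent.K3h63.QC

theorem chk111 : chkAt ex0 0 val (mqC tb) 1000080
    (50004000 + 75 * 268435456 + 30 * 268435456) 1 1 1 = true := by
  decide +kernel

theorem chk112 : chkAt ex0 0 val (mqC tb) 1000080
    (50004000 + 75 * 268435456 + 30 * 268435456) 1 1 2 = true := by
  decide +kernel

theorem chk122 : chkAt ex0 0 val (mqC tb) 1000080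
    (50004000 + 75 * 268435456 + 30 * 268435456) 1 2 2 = true := by
  decide +kernel

theorem chk222 : chkAt ex0 0 val (mqC tb) 1000080
    (50004000 + 75 * 268435456 + 30 * 268435456) 2 2 2 = true := by
  decide +kernel

end Pool.Agent.K3h63.QC.F1
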