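import Pool.Agent.K3h63.QC.Kinds
import Pool.Agent.K3h63.QC.F1Chk
import Pool.Agent.K3h63.QC.F2Chk
import Pool.Agent.K3h63.QC.F3Chk
import Pool.Agent.K3h63.QC.F5Chk
import Pool.Agent.K3h63.QC.F6Chk

set_option autoImplicit false

/-!
The inequalities for the number of edges of a 3-graph without `K_4^3` with a partition into three
classes, one for each of the five kinds of sets of four vertices.
-/

namespace Pool.Agent.K3h63.QC
open Finset Pool.Agent.Y439.Col Pool.Agent.R81.TC

variable {n : ℕ}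

section

variable {H : Finset (Finset (Fin n))} (h3 : ∀ e ∈ H, e.card = 3)
  (hK : ∀ S : Finset (Fin n), S.card = 4 → ∃ T ⊆ S, T.card = 3 ∧ T ∉ H) (c : Fin n → Fin 3)
include h3 hK

theorem boundA (hs : ∀ l, n ≤ 7 * classSize c l) : 54 * H.card * n ≤
    5 * n ^ 4 + 50000 * ((quads (KindA H c)).card + n ^ 3) := by
  have h := F1.final (fun v => (c v : ℕ)) (fun x => (c x).isLt) (fun k hk => size_cond' hs k hk)
    (tri H) (tri_le H) (tri_s1 H) (tri_s2 H) (tri_k4 h3 hK)
  have h1 := edges_quads h3 1000080 11807361 36 _ _ (by norm_num) (by norm_num) (by norm_num) h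
  have h2 := bi_sum_le (quads (KindA H c)) quads_card badA (fun v => (c v : ℕ)) (tri H)
    (fun x y u w xy xu xw yu yw uw => badA_kind h3 c xy xu xw yu yw uw)
  omega

theorem boundB (hs : ∀ l, n ≤ 6 * classSize c l) : 54 * H.card * n ≤
    5 * n ^ 4 + 50000 * (quads (KindB H c)).card := by
  have h := F2.final (fun v => (c v : ℕ)) (fun x => (c x).isLt) (fun k hk => size_cond' hs k hk)
    (tri H) (tri_le H) (tri_s1 H) (tri_s2 H) (tri_k4 h3 hK)
  have h1 := edges_quads h3 1000080 8315972 25 _ _ (by norm_num) (by norm_num) (by norm_num) h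
  have h2 := bi_sum_le' (quads (KindB H c)) quads_card badB (fun v => (c v : ℕ)) (tri H)
    (fun x y u w hb => by
      have hd : x ≠ y ∧ x ≠ u ∧ x ≠ w ∧ y ≠ u ∧ y ≠ w ∧ u ≠ w := badB_distinct h3 c hb
      obtain ⟨xy, xu, xw, yu, yw, uw⟩ := hd
      exact badB_kind h3 c xy xu xw yu yw uw hb)
  omega

theorem boundC : 54 * H.card * n ≤ 5 * n ^ 4 + 50000 * ((quads (KindC H c)).card + n ^ 3) := by
  have h := F3.final (fun v => (c v : ℕ)) (fun x => (c x).isLt) (fun k _ => by
    rw [Nat.zero_mul]; exact Nat.zero_le _)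
    (tri H) (tri_le H) (tri_s1 H) (tri_s2 H) (tri_k4 h3 hK)
  have h1 := edges_quads h3 100080 3744033 113 _ _ (by norm_num) (by norm_num) (by norm_num) h
  have h2 := bi_sum_le (quads (KindC H c)) quads_card badC (fun v => (c v : ℕ)) (tri H)
    (fun x y u w xy xu xw yu yw uw => badC_kind h3 c xy xu xw yu yw uw)
  omega

theorem boundD : 54 * H.card * n ≤ 5 * n ^ 4 + 50000 * ((quads (KindD H c)).card + n ^ 3) := by
  have h := F5.final (fun v => (c v : ℕ)) (fun x => (c x).isLt) (fun k _ => by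
    rw [Nat.zero_mul]; exact Nat.zero_le _)
    (tri H) (tri_le H) (tri_s1 H) (tri_s2 H) (tri_k4 h3 hK)
  have h1 := edges_quads h3 1000080 16083813 49 _ _ (by norm_num) (by norm_num) (by norm_num) h
  have h2 := bi_sum_le (quads (KindD H c)) quads_card badD (fun v => (c v : ℕ)) (tri H)
    (fun x y u w xy xu xw yu yw uw => badD_kind h3 c xy xu xw yu yw uw)
  omega

theorem boundE (hs : ∀ l, n ≤ 50 * classSize c l) : 54 * H.card * n ≤
    5 * n ^ 4 + 50000 * ((quads (KindE H c)).card + n ^ 3) := by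
  have h := F6.final (fun v => (c v : ℕ)) (fun x => (c x).isLt) (fun k hk => size_cond' hs k hk)
    (tri H) (tri_le H) (tri_s1 H) (tri_s2 H) (tri_k4 h3 hK)
  have h1 := edges_quads h3 100080 5898709 177 _ _ (by norm_num) (by norm_num) (by norm_num) h
  have h2 := bi_sum_le (quads (KindE H c)) quads_card badE (fun v => (c v : ℕ)) (tri H)
    (fun x y u w xy xu xw yu yw uw => badE_kind h3 c xy xu xw yu yw uw)
  omega

end

end Pool.Agent.K3h63.QC
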