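import Pool.Agent.K3h63.QC.Sets4

set_option autoImplicit false

/-!
Five kinds of sets of four vertices of a 3-graph with a partition into three classes, and the ordered
quadruples of vertices with an excluded state.
-/

namespace Pool.Agent.K3h63.QC
open Finset Pool.Agent.Y439.Col Pool.Agent.R81.TC

variable {n : ℕ}

/-- `S` meets all three classes and contains exactly two edges. -/
def KindA (H : Finset (Finset (Fin n))) (c : Fin n → Fin 3) (S : Finset (Fin n)) : Prop :=
  (∀ l, 1 ≤ cnt c S l) ∧ (inside H S).card = 2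

/-- `S` has zero or two vertices in every class and contains exactly three edges. -/
def KindB (H : Finset (Finset (Fin n))) (c : Fin n → Fin 3) (S : Finset (Fin n)) : Prop :=
  (∀ l, cnt c S l = 0 ∨ cnt c S l = 2) ∧ (inside H S).card = 3

/-- `S` has at least three vertices in some class and contains exactly two edges. -/
def KindC (H : Finset (Finset (Fin n))) (c : Fin n → Fin 3) (S : Finset (Fin n)) : Prop :=
  (∃ l, 3 ≤ cnt c S l) ∧ (inside H S).card = 2

/-- `S` has exactly three vertices in some class and contains exactly two edges, or it has four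
vertices in some class and contains exactly three edges. -/
def KindD (H : Finset (Finset (Fin n))) (c : Fin n → Fin 3) (S : Finset (Fin n)) : Prop :=
  (∃ l, cnt c S l = 3) ∧ (inside H S).card = 2 ∨ (∃ l, cnt c S l = 4) ∧ (inside H S).card = 3

/-- `S` has exactly three vertices in some class `l`, and exactly two of the edges inside `S` contain
the fourth vertex. -/
def KindE (H : Finset (Finset (Fin n))) (c : Fin n → Fin 3) (S : Finset (Fin n)) : Prop :=
  ∃ l, cnt c S l = 3 ∧ ((inside H S).filter fun e => ∃ v ∈ e, c v ≠ l).card = 2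

instance (H : Finset (Finset (Fin n))) (c : Fin n → Fin 3) : DecidablePred (KindA H c) :=
  fun S => by unfold KindA; infer_instance

instance (H : Finset (Finset (Fin n))) (c : Fin n → Fin 3) : DecidablePred (KindB H c) :=
  fun S => by unfold KindB; infer_instance

instance (H : Finset (Finset (Fin n))) (c : Fin n → Fin 3) : DecidablePred (KindC H c) :=
  fun S => by unfold KindC; infer_instance

instance (H : Finset (Finset (Fin n))) (c : Fin n → Fin 3) : DecidablePred (KindD H c) :=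
  fun S => by unfold KindD; infer_instance

instance (H : Finset (Finset (Fin n))) (c : Fin n → Fin 3) : DecidablePred (KindE H c) :=
  fun S => by unfold KindE; infer_instance

/-- The sets of four vertices with the property `p`. -/
def quads (p : Finset (Fin n) → Prop) [DecidablePred p] : Finset (Finset (Fin n)) :=
  (univ.powersetCard 4).filter p

theorem mem_quads {p : Finset (Fin n) → Prop} [DecidablePred p] {S : Finset (Fin n)}
    (h4 : S.card = 4) (h : p S) : S ∈ quads p := by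
  rw [quads, mem_filter, mem_powersetCard]
  exact ⟨⟨subset_univ S, h4⟩, h⟩

theorem quads_card {p : Finset (Fin n) → Prop} [DecidablePred p] : ∀ S ∈ quads p, S.card = 4 :=
  fun _ hS => (mem_powersetCard.1 (mem_filter.1 hS).1).2

/-- The number of positions with colour `l`. -/
def num (a b d f l : Fin 3) : ℕ :=
  (if a = l then 1 else 0) + ((if b = l then 1 else 0) + ((if d = l then 1 else 0) +
    (if f = l then 1 else 0)))

theorem co1 : ∀ a b d f : Fin 3, Nat.beq (co a b d f) 1 = true → ∀ l, 1 ≤ num a b d f l := by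
  decide +kernel

theorem co2 : ∀ a b d f : Fin 3, Nat.beq (co a b d f) 2 = true →
    ∀ l, num a b d f l = 0 ∨ num a b d f l = 2 := by
  decide +kernel

theorem co3 : ∀ a b d f : Fin 3, Nat.ble 3 (co a b d f) = true → ∃ l, 3 ≤ num a b d f l := by
  decide +kernel

theorem co3' : ∀ a b d f : Fin 3, Nat.beq (co a b d f) 3 = true → ∃ l, num a b d f l = 3 := by
  decide +kernel

theorem co6 : ∀ a b d f : Fin 3, Nat.beq (co a b d f) 6 = true → ∃ l, num a b d f l = 4 := by
  decide +kernel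

theorem coE : ∀ a b d f : Fin 3, ∀ b1 b2 b3 b4 : Fin 2, badE a b d f b1 b2 b3 b4 = true →
    ∃ l, num a b d f l = 3 ∧
      (if (b1 : ℕ) = 1 ∧ (a ≠ l ∨ b ≠ l ∨ d ≠ l) then 1 else 0) +
      (if (b2 : ℕ) = 1 ∧ (a ≠ l ∨ b ≠ l ∨ f ≠ l) then 1 else 0) +
      ((if (b3 : ℕ) = 1 ∧ (a ≠ l ∨ d ≠ l ∨ f ≠ l) then 1 else 0) +
      (if (b4 : ℕ) = 1 ∧ (b ≠ l ∨ d ≠ l ∨ f ≠ l) then 1 else 0)) = 2 := by
  decide +kernel

section

variable {H : Finset (Finset (Fin n))} (h3 : ∀ e ∈ H, e.card = 3) (c : Fin n → Fin 3)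
  {x y u w : Fin n} (xy : x ≠ y) (xu : x ≠ u) (xw : x ≠ w) (yu : y ≠ u) (yw : y ≠ w) (uw : u ≠ w)
include xy xu xw yu yw uw

theorem cnt_eq (l : Fin 3) : cnt c {x, y, u, w} l = num (c x) (c y) (c u) (c w) l :=
  card_filter4 xy xu xw yu yw uw _

include h3

theorem inside_eq : (inside H {x, y, u, w}).card =
    sum4 (tri H x y u) (tri H x y w) (tri H x u w) (tri H y u w) := by
  have h := card_inside h3 (fun _ => True) xy xu xw yu yw uw
  simp only [and_true, filter_true] at h
  exact h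

theorem badA_kind (h : badA (c x) (c y) (c u) (c w) (tri H x y u) (tri H x y w) (tri H x u w)
    (tri H y u w) = true) : ({x, y, u, w} : Finset (Fin n)) ∈ quads (KindA H c) := by
  unfold badA at h
  rw [Bool.and_eq_true] at h
  refine mem_quads (card4 xy xu xw yu yw uw) ⟨fun l => ?_, ?_⟩
  · rw [cnt_eq c xy xu xw yu yw uw]
    exact co1 _ _ _ _ h.1 l
  · rw [inside_eq h3 xy xu xw yu yw uw]
    exact Nat.eq_of_beq_eq_true h.2

theorem badB_kind (h : badB (c x) (c y) (c u) (c w) (tri H x y u) (tri H x y w) (tri H x u w)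
    (tri H y u w) = true) : ({x, y, u, w} : Finset (Fin n)) ∈ quads (KindB H c) := by
  unfold badB at h
  rw [Bool.and_eq_true] at h
  refine mem_quads (card4 xy xu xw yu yw uw) ⟨fun l => ?_, ?_⟩
  · rw [cnt_eq c xy xu xw yu yw uw]
    exact co2 _ _ _ _ h.1 l
  · rw [inside_eq h3 xy xu xw yu yw uw]
    exact Nat.eq_of_beq_eq_true h.2

theorem badC_kind (h : badC (c x) (c y) (c u) (c w) (tri H x y u) (tri H x y w) (tri H x u w)
    (tri H y u w) = true) : ({x, y, u, w} : Finset (Fin n)) ∈ quads (KindC H c) := by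
  unfold badC at h
  rw [Bool.and_eq_true] at h
  obtain ⟨l, hl⟩ := co3 _ _ _ _ h.1
  refine mem_quads (card4 xy xu xw yu yw uw) ⟨⟨l, ?_⟩, ?_⟩
  · rw [cnt_eq c xy xu xw yu yw uw]
    exact hl
  · rw [inside_eq h3 xy xu xw yu yw uw]
    exact Nat.eq_of_beq_eq_true h.2

theorem badD_kind (h : badD (c x) (c y) (c u) (c w) (tri H x y u) (tri H x y w) (tri H x u w)
    (tri H y u w) = true) : ({x, y, u, w} : Finset (Fin n)) ∈ quads (KindD H c) := by
  unfold badD at h
  rw [Bool.or_eq_true, Bool.and_eq_true, Bool.and_eq_true] at h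
  refine mem_quads (card4 xy xu xw yu yw uw) ?_
  rcases h with h | h
  · obtain ⟨l, hl⟩ := co3' _ _ _ _ h.1
    refine Or.inl ⟨⟨l, ?_⟩, ?_⟩
    · rw [cnt_eq c xy xu xw yu yw uw]
      exact hl
    · rw [inside_eq h3 xy xu xw yu yw uw]
      exact Nat.eq_of_beq_eq_true h.2
  · obtain ⟨l, hl⟩ := co6 _ _ _ _ h.1
    refine Or.inr ⟨⟨l, ?_⟩, ?_⟩
    · rw [cnt_eq c xy xu xw yu yw uw]
      exact hl
    · rw [inside_eq h3 xy xu xw yu yw uw]
      exact Nat.eq_of_beq_eq_true h.2

theorem badE_kind (h : badE (c x) (c y) (c u) (c w) (tri H x y u) (tri H x y w) (tri H x u w)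
    (tri H y u w) = true) : ({x, y, u, w} : Finset (Fin n)) ∈ quads (KindE H c) := by
  have lt : ∀ a b d, tri H a b d < 2 := fun a b d => by
    have := tri_le H a b d
    omega
  obtain ⟨l, hl, hl2⟩ := coE (c x) (c y) (c u) (c w) ⟨_, lt x y u⟩ ⟨_, lt x y w⟩ ⟨_, lt x u w⟩
    ⟨_, lt y u w⟩ h
  refine mem_quads (card4 xy xu xw yu yw uw) ⟨l, ?_, ?_⟩
  · rw [cnt_eq c xy xu xw yu yw uw]
    exact hl
  · rw [card_inside h3 (fun e => ∃ v ∈ e, c v ≠ l) xy xu xw yu yw uw, ← hl2]
    have e1 : ∀ a b d : Fin n, (({a, b, d} : Finset (Fin n)) ∈ H ∧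
        ∃ v ∈ ({a, b, d} : Finset (Fin n)), c v ≠ l) ↔
        (tri H a b d = 1 ∧ (c a ≠ l ∨ c b ≠ l ∨ c d ≠ l)) := by
      intro a b d
      rw [tri_eq_one]
      simp
    simp only [e1]

end

/-- Four vertices in a state excluded by `badB` are distinct. -/
theorem badB_distinct {H : Finset (Finset (Fin n))} (h3 : ∀ e ∈ H, e.card = 3)
    (c : Fin n → Fin 3) {x y u w : Fin n}
    (h : badB (c x) (c y) (c u) (c w) (tri H x y u) (tri H x y w) (tri H x u w)
      (tri H y u w) = true) : x ≠ y ∧ x ≠ u ∧ x ≠ w ∧ y ≠ u ∧ y ≠ w ∧ u ≠ w := by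
  unfold badB at h
  rw [Bool.and_eq_true] at h
  have h2 : (tri H x y u + tri H x y w) + (tri H x u w + tri H y u w) = 3 :=
    Nat.eq_of_beq_eq_true h.2
  have l1 := tri_le H x y u
  have l2 := tri_le H x y w
  have l3 := tri_le H x u w
  have l4 := tri_le H y u w
  have d : ∀ a b e : Fin n, tri H a b e = 1 → a ≠ b ∧ a ≠ e ∧ b ≠ e := fun a b e he =>
    distinct_of_mem h3 (tri_eq_one.1 he)
  have hcase : (tri H x y u = 1 ∧ tri H x y w = 1 ∧ tri H x u w = 1) ∨
      (tri H x y u = 1 ∧ tri H x y w = 1 ∧ tri H y u w = 1) ∨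
      (tri H x y u = 1 ∧ tri H x u w = 1 ∧ tri H y u w = 1) ∨
      (tri H x y w = 1 ∧ tri H x u w = 1 ∧ tri H y u w = 1) := by omega
  rcases hcase with ⟨a, b, e⟩ | ⟨a, b, e⟩ | ⟨a, b, e⟩ | ⟨a, b, e⟩
  · exact ⟨(d _ _ _ a).1, (d _ _ _ a).2.1, (d _ _ _ b).2.1, (d _ _ _ a).2.2, (d _ _ _ b).2.2,
      (d _ _ _ e).2.2⟩
  · exact ⟨(d _ _ _ a).1, (d _ _ _ a).2.1, (d _ _ _ b).2.1, (d _ _ _ a).2.2, (d _ _ _ b).2.2,
      (d _ _ _ e).2.2⟩
  · exact ⟨(d _ _ _ a).1, (d _ _ _ a).2.1, (d _ _ _ b).2.1, (d _ _ _ a).2.2, (d _ _ _ e).2.1,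
      (d _ _ _ b).2.2⟩
  · exact ⟨(d _ _ _ a).1, (d _ _ _ b).1, (d _ _ _ a).2.1, (d _ _ _ e).1, (d _ _ _ a).2.2,
      (d _ _ _ b).2.2⟩

/-- The number of vertices of the class `l`. -/
def classSize (c : Fin n → Fin 3) (l : Fin 3) : ℕ := (univ.filter fun x => c x = l).card

theorem size_cond' {c : Fin n → Fin 3} {m : ℕ} (hs : ∀ l, n ≤ m * classSize c l) (k : ℕ)
    (hk : k < 3) : 1 * Fintype.card (Fin n) ≤ m *
      (univ.filter fun z => ((c z : Fin 3) : ℕ) = k).card := by
  have h := hs ⟨k, hk⟩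
  rw [Fintype.card_fin, one_mul]
  have e : (univ.filter fun z => ((c z : Fin 3) : ℕ) = k) = univ.filter fun z => c z = ⟨k, hk⟩ := by
    ext z
    simp [Fin.ext_iff]
  rw [e]
  exact h

/-- From the inequality given by a certificate to the inequality for the number of edges. -/
theorem edges_quads {H : Finset (Finset (Fin n))} (h3 : ∀ e ∈ H, e.card = 3)
    (W P A K0 X : ℕ) (hW : 0 < W) (hK0 : K0 = 50 * W) (hA : 3 * P ≤ A * W)
    (h : 90 * W * (Fintype.card (Fin n) ^ 2 * ∑ a, ∑ b, ∑ d, tri H a b d) ≤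
      K0 * Fintype.card (Fin n) ^ 5 + 30 * (P * (Fintype.card (Fin n) * X))) :
    54 * H.card * n ≤ 5 * n ^ 4 + A * X := by
  rw [Fintype.card_fin] at h
  rcases Nat.eq_zero_or_pos n with h0 | h0
  · have h5 : 54 * H.card * n = 54 * H.card * 0 := congrArg (fun m => 54 * H.card * m) h0
    rw [h5, Nat.mul_zero]
    exact Nat.zero_le _
  · have h6 := six_card_le h3
    set S := ∑ a, ∑ b, ∑ d, tri H a b d with hS
    have h7 : n * (90 * W * (n * S)) ≤ n * (50 * W * n ^ 4 + 30 * (P * X)) := by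
      calc n * (90 * W * (n * S)) = 90 * W * (n ^ 2 * S) := by ring
        _ ≤ _ := h
        _ = _ := by rw [hK0]; ring
    have h8 := Nat.le_of_mul_le_mul_left h7 h0
    have h9 : 10 * W * (54 * H.card * n) ≤ 10 * W * (5 * n ^ 4 + A * X) := by
      calc 10 * W * (54 * H.card * n) = 90 * W * (n * (6 * H.card)) := by ring
        _ ≤ 90 * W * (n * S) := by gcongr
        _ ≤ 50 * W * n ^ 4 + 30 * (P * X) := h8
        _ = 50 * W * n ^ 4 + 10 * X * (3 * P) := by ring
        _ ≤ 50 * W * n ^ 4 + 10 * X * (A * W) := by gcongr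
        _ = _ := by ring
    exact Nat.le_of_mul_le_mul_left h9 (by positivity)

end Pool.Agent.K3h63.QC
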