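import Pool.Agent.R81.TC.MainC

set_option autoImplicit false

/-!
The inequality obtained from a certificate for three classes with multipliers for their sizes and a
penalty for the four-vertex states of excluded kinds.
-/

namespace Pool.Agent.K3h63.QC
open Finset Pool.Agent.Y439.Col Pool.Agent.R81.TC

/-- No edges are excluded. -/
def ex0 (_ _ _ : ℕ) : ℕ := 0

/-- The number `O`, diminished by `P` for an excluded state. -/
def lowB (b : Bool) (O P : ℕ) : ℕ :=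
  match b with
  | true => Nat.sub O P
  | false => O

/-- The indicator of the excluded states. -/
def oneB (b : Bool) : ℕ :=
  match b with
  | true => 1
  | false => 0

theorem lowB_add (b : Bool) (O P : ℕ) : O ≤ lowB b O P + P * oneB b := by
  cases b
  · show O ≤ O + P * 0
    omega
  · show O ≤ (O - P) + P * 1
    omega

/-- The check of the table of multipliers. -/
def tbOKD (tb : ℕ → ℕ) (bad : ℕ → ℕ → ℕ → ℕ → ℕ → ℕ → ℕ → ℕ → Bool) (p q O P : ℕ) : Bool :=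
  allb 3 fun x => allb 3 fun y => allb 3 fun u => allb 3 fun w =>
  allb 2 fun b1 => allb 2 fun b2 => allb 2 fun b3 => allb 2 fun b4 => allb 3 fun k =>
    Nat.ble (Nat.mul (Nat.add (Nat.mul 3 p) q) (lowB (bad x y u w b1 b2 b3 b4) O P))
      (Nat.add (Nat.mul p (Nat.add (Nat.add (tb (Nat.mul 3 (mixA x y u w b1 b2 b3 b4)))
        (tb (Nat.add (Nat.mul 3 (mixA x y u w b1 b2 b3 b4)) 1)))
        (tb (Nat.add (Nat.mul 3 (mixA x y u w b1 b2 b3 b4)) 2))))
        (Nat.mul q (tb (Nat.add (Nat.mul 3 (mixA x y u w b1 b2 b3 b4)) k))))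

theorem tbOKD_elim {tb : ℕ → ℕ} {bad : ℕ → ℕ → ℕ → ℕ → ℕ → ℕ → ℕ → ℕ → Bool} {p q O P : ℕ}
    (h : tbOKD tb bad p q O P = true) {x y u w b1 b2 b3 b4 : ℕ} (hx : x < 3) (hy : y < 3)
    (hu : u < 3) (hw : w < 3) (h1 : b1 < 2) (h2 : b2 < 2) (h3 : b3 < 2) (h4 : b4 < 2) (k : ℕ)
    (hk : k < 3) : (3 * p + q) * lowB (bad x y u w b1 b2 b3 b4) O P ≤
      p * (tb (3 * mixA x y u w b1 b2 b3 b4) + tb (3 * mixA x y u w b1 b2 b3 b4 + 1) +
        tb (3 * mixA x y u w b1 b2 b3 b4 + 2)) + q * tb (3 * mixA x y u w b1 b2 b3 b4 + k) := by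
  have g1 := allb_elim (allb_elim (allb_elim (allb_elim h x hx) y hy) u hu) w hw
  have g2 := allb_elim (allb_elim (allb_elim (allb_elim g1 b1 h1) b2 h2) b3 h3) b4 h4
  exact Nat.le_of_ble_eq_true (allb_elim g2 k hk)

variable {V : Type*} [Fintype V]

/-- The indicator of the excluded quadruples of vertices. -/
def bi (bad : ℕ → ℕ → ℕ → ℕ → ℕ → ℕ → ℕ → ℕ → Bool) (c : V → ℕ) (e : V → V → V → ℕ)
    (x y u w : V) : ℕ :=
  oneB (bad (c x) (c y) (c u) (c w) (e x y u) (e x y w) (e x u w) (e y u w))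

theorem mgD_sum (tb : ℕ → ℕ) (bad : ℕ → ℕ → ℕ → ℕ → ℕ → ℕ → ℕ → ℕ → Bool) (p q O P : ℕ)
    (hq : 0 < q) (htb : tbOKD tb bad p q O P = true) (c : V → ℕ) (hc : ∀ x, c x < 3)
    (hs : ∀ k < 3, p * Fintype.card V ≤ (3 * p + q) * (univ.filter fun z => c z = k).card)
    (e : V → V → V → ℕ) (e1 : ∀ x y z, e x y z ≤ 1) :
    O * Fintype.card V ^ 5 ≤
      ∑ x : Fin 5 → V, mg (mqC tb) c e (x 0) (x 1) (x 2) (x 3) (x 4) +
        P * (Fintype.card V * ∑ x, ∑ y, ∑ u, ∑ w, bi bad c e x y u w) := by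
  rw [sum_five]
  have h : ∀ x y u w : V, O * Fintype.card V ≤ ∑ z, mg (mqC tb) c e x y u w z +
      P * (Fintype.card V * bi bad c e x y u w) := by
    intro x y u w
    have lt2 : ∀ {b : ℕ}, b ≤ 1 → b < 2 := fun h => by omega
    have g := fun k hk => tbOKD_elim htb (hc x) (hc y) (hc u) (hc w) (lt2 (e1 x y u))
      (lt2 (e1 x y w)) (lt2 (e1 x u w)) (lt2 (e1 y u w)) k hk
    set i := mixA (c x) (c y) (c u) (c w) (e x y u) (e x y w) (e x u w) (e y u w) with hi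
    have h1 : ∑ z, mg (mqC tb) c e x y u w z = ∑ z, (fun k => tb (3 * i + k)) (c z) := rfl
    have h2 : lowB (bad (c x) (c y) (c u) (c w) (e x y u) (e x y w) (e x u w) (e y u w)) O P *
        Fintype.card V ≤ ∑ z, mg (mqC tb) c e x y u w z := by
      rw [h1, three_sum c hc (fun k => tb (3 * i + k))]
      exact convex_sum hq (three_card c hc) (g 0 (by norm_num)) (g 1 (by norm_num))
        (g 2 (by norm_num)) (hs 0 (by norm_num)) (hs 1 (by norm_num)) (hs 2 (by norm_num))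
    have h3 := Nat.mul_le_mul_right (Fintype.card V)
      (lowB_add (bad (c x) (c y) (c u) (c w) (e x y u) (e x y w) (e x u w) (e y u w)) O P)
    calc O * Fintype.card V ≤ _ := h3
      _ = lowB (bad (c x) (c y) (c u) (c w) (e x y u) (e x y w) (e x u w) (e y u w)) O P *
        Fintype.card V + P * (Fintype.card V * bi bad c e x y u w) := by
          unfold bi
          ring
      _ ≤ _ := Nat.add_le_add_right h2 _
  calc O * Fintype.card V ^ 5
      = ∑ _x : V, ∑ _y : V, ∑ _u : V, ∑ _w : V, O * Fintype.card V := by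
        simp only [sum_const, card_univ, smul_eq_mul]; ring
    _ ≤ ∑ x : V, ∑ y : V, ∑ u : V, ∑ w : V, (∑ z, mg (mqC tb) c e x y u w z +
          P * (Fintype.card V * bi bad c e x y u w)) :=
        sum_le_sum fun x _ => sum_le_sum fun y _ => sum_le_sum fun u _ =>
          sum_le_sum fun w _ => h x y u w
    _ = _ := by simp only [sum_add_distrib, mul_sum]

variable {val : ℕ → ℕ → ℕ → ℕ} {rows : ℕ → List (List ℤ)} {OFF : ℕ}

/-- The main inequality. -/
theorem mainD (hG : GoodA val rows OFF) (W K0 : ℕ) (tb : ℕ → ℕ)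
    (bad : ℕ → ℕ → ℕ → ℕ → ℕ → ℕ → ℕ → ℕ → Bool) (p q O P : ℕ) (hq : 0 < q)
    (htb : tbOKD tb bad p q O P = true) (hmv : symOK (mqC tb) = true)
    (hchk : ∀ C0 C1 C2 C3 C4 : ℕ, C0 ≤ C1 → C1 ≤ C2 → C2 ≤ C3 → C3 ≤ C4 → C4 < 3 →
      chkA ex0 0 val (mqC tb) W (K0 + 75 * OFF + 30 * O) C0 C1 C2 C3 C4 = true)
    (c : V → ℕ) (hc : ∀ x, c x < 3)
    (hs : ∀ k < 3, p * Fintype.card V ≤ (3 * p + q) * (univ.filter fun z => c z = k).card)
    (e : V → V → V → ℕ) (e1 : ∀ x y z, e x y z ≤ 1)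
    (s1 : ∀ x y z, e x y z = e y x z) (s2 : ∀ x y z, e x y z = e x z y)
    (hK : ∀ x y z w, e x y z = 0 ∨ e x y w = 0 ∨ e x z w = 0 ∨ e y z w = 0) :
    90 * W * (Fintype.card V ^ 2 * ∑ a, ∑ b, ∑ d, e a b d) ≤
      K0 * Fintype.card V ^ 5 +
        30 * (P * (Fintype.card V * ∑ x, ∑ y, ∑ u, ∑ w, bi bad c e x y u w)) := by
  have hsum : ∑ x : Fin 5 → V, (S60 (v3A val c e) (x 0) (x 1) (x 2) (x 3) (x 4) +
      S15 (v1A val c e) (x 0) (x 1) (x 2) (x 3) (x 4) + 9 * W * S10 e (x 0) (x 1) (x 2) (x 3) (x 4) +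
      S30 (mg (mqC tb) c e) (x 0) (x 1) (x 2) (x 3) (x 4)) ≤
      ∑ x : Fin 5 → V, ((K0 + 75 * OFF + 30 * O) +
        0 * S10 (bd ex0 c e) (x 0) (x 1) (x 2) (x 3) (x 4)) :=
    sum_le_sum fun x _ => keyA hG ex0 0 W _ (fun _ _ _ _ _ _ => rfl) (fun _ _ _ _ _ _ => rfl) _ hmv
      hchk c hc e e1 s1 s2 hK _ _ _ _ _
  simp only [Nat.zero_mul, Nat.add_zero] at hsum
  rw [sum_add_distrib, sum_add_distrib, sum_add_distrib, ← mul_sum,
    sum_S60, sum_S15, sum_S10, sum_S30, e_sum, sum_const, card_univ, smul_eq_mul,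
    Fintype.card_fun, Fintype.card_fin] at hsum
  have h3 := v3A_sum hG c hc e e1
  have h1 := v1A_sum hG c hc e e1
  have hm := mgD_sum tb bad p q O P hq htb c hc hs e e1
  nlinarith [hsum, h3, h1, hm]

end Pool.Agent.K3h63.QC
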