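import Pool.Agent.R81.TC.Comb
import Pool.Agent.K3h63.QC.Bad

set_option autoImplicit false

/-!
Sets of four vertices of a 3-graph: the edges inside such a set, and the number of ordered quadruples
of vertices whose state is excluded.
-/

namespace Pool.Agent.K3h63.QC
open Finset Pool.Agent.Y439.Col Pool.Agent.R81.TC

variable {n : ℕ}

/-- The edges of `H` contained in the set `S`. -/
def inside (H : Finset (Finset (Fin n))) (S : Finset (Fin n)) : Finset (Finset (Fin n)) :=
  H.filter fun e => e ⊆ S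

/-- The number of vertices of the set `S` in the class `l`. -/
def cnt (c : Fin n → Fin 3) (S : Finset (Fin n)) (l : Fin 3) : ℕ :=
  (S.filter fun x => c x = l).card

theorem card_filter4 {x y u w : Fin n} (xy : x ≠ y) (xu : x ≠ u) (xw : x ≠ w) (yu : y ≠ u)
    (yw : y ≠ w) (uw : u ≠ w) (p : Fin n → Prop) [DecidablePred p] :
    (({x, y, u, w} : Finset (Fin n)).filter p).card =
      (if p x then 1 else 0) + ((if p y then 1 else 0) + ((if p u then 1 else 0) +
        (if p w then 1 else 0))) := by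
  rw [card_filter, sum_insert (by simp [xy, xu, xw]), sum_insert (by simp [yu, yw]),
    sum_insert (by simp [uw]), sum_singleton]

theorem card4 {x y u w : Fin n} (xy : x ≠ y) (xu : x ≠ u) (xw : x ≠ w) (yu : y ≠ u)
    (yw : y ≠ w) (uw : u ≠ w) : ({x, y, u, w} : Finset (Fin n)).card = 4 := by
  rw [card_insert_of_notMem (by simp [xy, xu, xw]), card_insert_of_notMem (by simp [yu, yw]),
    card_insert_of_notMem (by simp [uw]), card_singleton]

/-- The number of edges with a property inside a set of four vertices. -/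
theorem card_inside {H : Finset (Finset (Fin n))} (h3 : ∀ e ∈ H, e.card = 3) (q : Finset (Fin n) → Prop)
    [DecidablePred q] {x y u w : Fin n} (xy : x ≠ y) (xu : x ≠ u) (xw : x ≠ w) (yu : y ≠ u)
    (yw : y ≠ w) (uw : u ≠ w) :
    ((inside H {x, y, u, w}).filter q).card =
      (if ({x, y, u} : Finset (Fin n)) ∈ H ∧ q {x, y, u} then 1 else 0) +
      (if ({x, y, w} : Finset (Fin n)) ∈ H ∧ q {x, y, w} then 1 else 0) +
      ((if ({x, u, w} : Finset (Fin n)) ∈ H ∧ q {x, u, w} then 1 else 0) +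
      (if ({y, u, w} : Finset (Fin n)) ∈ H ∧ q {y, u, w} then 1 else 0)) := by
  set S : Finset (Fin n) := {x, y, u, w} with hS
  have hc : S.card = 4 := card4 xy xu xw yu yw uw
  have e1 : (inside H S).filter q =
      (S.filter fun v => S.erase v ∈ H ∧ q (S.erase v)).image fun v => S.erase v := by
    ext T
    simp only [inside, mem_filter, mem_image]
    constructor
    · rintro ⟨⟨hT, hTS⟩, hq⟩
      have h1 : (S \ T).card = 1 := by
        rw [card_sdiff_of_subset hTS, hc, h3 T hT]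
      obtain ⟨v, hv⟩ := card_eq_one.1 h1
      have hvS : v ∈ S := (mem_sdiff.1 (hv ▸ mem_singleton_self v)).1
      have hT2 : S.erase v = T := by
        rw [erase_eq, ← hv, Finset.sdiff_sdiff_eq_self hTS]
      exact ⟨v, ⟨hvS, hT2 ▸ ⟨hT, hq⟩⟩, hT2⟩
    · rintro ⟨v, ⟨_, hvH, hvq⟩, rfl⟩
      exact ⟨⟨hvH, erase_subset _ _⟩, hvq⟩
  rw [e1, card_image_of_injOn, hS, card_filter4 xy xu xw yu yw uw]
  · have a1 : ({x, y, u, w} : Finset (Fin n)).erase x = {y, u, w} := by
      rw [erase_insert (by simp [xy, xu, xw])]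
    have a2 : ({x, y, u, w} : Finset (Fin n)).erase y = {x, u, w} := by
      rw [insert_comm, erase_insert (by simp [xy.symm, yu, yw])]
    have a3 : ({x, y, u, w} : Finset (Fin n)).erase u = {x, y, w} := by
      rw [insert_comm y u, insert_comm x u, erase_insert (by simp [xu.symm, yu.symm, uw])]
    have a4 : ({x, y, u, w} : Finset (Fin n)).erase w = {x, y, u} := by
      rw [pair_comm u w, insert_comm y w, insert_comm x w,
        erase_insert (by simp [xw.symm, yw.symm, uw.symm])]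
    rw [a1, a2, a3, a4]
    ring
  · intro a ha b hb hab
    have ha' : a ∈ S := (mem_filter.1 ha).1
    by_contra hne
    have h1 : a ∈ S.erase b := mem_erase.2 ⟨hne, ha'⟩
    rw [← show S.erase a = S.erase b from hab] at h1
    exact (notMem_erase a S) h1

/-- The indicator of a set. -/
def gS (S : Finset (Fin n)) (x : Fin n) : ℕ := if x ∈ S then 1 else 0

theorem gS_sum (S : Finset (Fin n)) : ∑ x, gS S x = S.card := by
  unfold gS
  rw [← card_filter]
  congr 1
  ext x
  simp

/-- The number of ordered quadruples of vertices forming a set of the family `B`. -/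
theorem quad_sum_le (B : Finset (Finset (Fin n))) (hB : ∀ S ∈ B, S.card = 4)
    (f : Fin n → Fin n → Fin n → Fin n → ℕ)
    (hf : ∀ x y u w, f x y u w ≤ if ({x, y, u, w} : Finset (Fin n)) ∈ B then 1 else 0) :
    ∑ x, ∑ y, ∑ u, ∑ w, f x y u w ≤ 256 * B.card := by
  have h1 : ∑ x, ∑ y, ∑ u, ∑ w, f x y u w ≤
      ∑ x, ∑ y, ∑ u, ∑ w, ∑ S ∈ B, gS S x * (gS S y * (gS S u * gS S w)) := by
    refine sum_le_sum fun x _ => sum_le_sum fun y _ => sum_le_sum fun u _ =>
      sum_le_sum fun w _ => (hf x y u w).trans ?_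
    split_ifs with h
    · refine le_trans ?_ (single_le_sum
        (f := fun S : Finset (Fin n) => gS S x * (gS S y * (gS S u * gS S w)))
        (fun _ _ => Nat.zero_le _) h)
      simp [gS]
    · exact Nat.zero_le _
  refine h1.trans ?_
  have h2 : ∑ x, ∑ y, ∑ u, ∑ w, ∑ S ∈ B, gS S x * (gS S y * (gS S u * gS S w)) =
      ∑ S ∈ B, ∑ x, ∑ y, ∑ u, ∑ w, gS S x * (gS S y * (gS S u * gS S w)) := by
    calc _ = ∑ x, ∑ y, ∑ u, ∑ S ∈ B, ∑ w, gS S x * (gS S y * (gS S u * gS S w)) :=
          sum_congr rfl fun x _ => sum_congr rfl fun y _ => sum_congr rfl fun u _ => sum_comm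
      _ = ∑ x, ∑ y, ∑ S ∈ B, ∑ u, ∑ w, gS S x * (gS S y * (gS S u * gS S w)) :=
          sum_congr rfl fun x _ => sum_congr rfl fun y _ => sum_comm
      _ = ∑ x, ∑ S ∈ B, ∑ y, ∑ u, ∑ w, gS S x * (gS S y * (gS S u * gS S w)) :=
          sum_congr rfl fun x _ => sum_comm
      _ = _ := sum_comm
  rw [h2, mul_comm, ← smul_eq_mul, ← sum_const]
  refine sum_le_sum fun S hS => ?_
  simp only [← mul_sum, ← sum_mul, gS_sum, hB S hS]
  norm_num

/-- The quadruples with a repetition. -/
def rep (x y u w : Fin n) : ℕ :=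
  (if x = y then 1 else 0) + (if x = u then 1 else 0) + (if x = w then 1 else 0) +
    ((if y = u then 1 else 0) + (if y = w then 1 else 0) + (if u = w then 1 else 0))

theorem rep_sum : ∑ x : Fin n, ∑ y, ∑ u, ∑ w, rep x y u w = 6 * n ^ 3 := by
  have e : ∀ (a : Fin n), ∑ b, (if a = b then 1 else 0) = 1 := fun a => by
    simp
  unfold rep
  simp only [sum_add_distrib, sum_const, card_univ, Fintype.card_fin, smul_eq_mul, e, mul_one,
    ← mul_sum]
  ring

theorem rep_pos {x y u w : Fin n} (h : ¬ (x ≠ y ∧ x ≠ u ∧ x ≠ w ∧ y ≠ u ∧ y ≠ w ∧ u ≠ w)) :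
    1 ≤ rep x y u w := by
  by_contra h0
  apply h
  unfold rep at h0
  refine ⟨?_, ?_, ?_, ?_, ?_, ?_⟩ <;>
  · rintro rfl
    simp at h0

/-- The sum over all quadruples of vertices, if the quadruples without repetition whose state is
excluded form sets of the family `B`. -/
theorem bi_sum_le (B : Finset (Finset (Fin n))) (hB : ∀ S ∈ B, S.card = 4)
    (bad : ℕ → ℕ → ℕ → ℕ → ℕ → ℕ → ℕ → ℕ → Bool) (c : Fin n → ℕ) (e : Fin n → Fin n → Fin n → ℕ)
    (hb : ∀ x y u w, x ≠ y → x ≠ u → x ≠ w → y ≠ u → y ≠ w → u ≠ w →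
      bad (c x) (c y) (c u) (c w) (e x y u) (e x y w) (e x u w) (e y u w) = true →
        ({x, y, u, w} : Finset (Fin n)) ∈ B) :
    ∑ x, ∑ y, ∑ u, ∑ w, bi bad c e x y u w ≤ 256 * B.card + 6 * n ^ 3 := by
  classical
  have h := quad_sum_le B hB
    (fun x y u w => if ({x, y, u, w} : Finset (Fin n)) ∈ B then 1 else 0) (fun _ _ _ _ => le_rfl)
  rw [← rep_sum]
  refine le_trans ?_ (Nat.add_le_add_right h _)
  simp only [← sum_add_distrib]
  refine sum_le_sum fun x _ => sum_le_sum fun y _ => sum_le_sum fun u _ => sum_le_sum fun w _ => ?_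
  unfold bi
  rcases hbd : bad (c x) (c y) (c u) (c w) (e x y u) (e x y w) (e x u w) (e y u w) with _ | _
  · exact Nat.zero_le _
  · show 1 ≤ _
    by_cases hd : x ≠ y ∧ x ≠ u ∧ x ≠ w ∧ y ≠ u ∧ y ≠ w ∧ u ≠ w
    · obtain ⟨xy, xu, xw, yu, yw, uw⟩ := hd
      rw [if_pos (hb x y u w xy xu xw yu yw uw hbd)]
      exact Nat.le_add_right _ _
    · exact (rep_pos hd).trans (Nat.le_add_left _ _)

/-- The same without an error term, if no state with a repetition is excluded. -/
theorem bi_sum_le' (B : Finset (Finset (Fin n))) (hB : ∀ S ∈ B, S.card = 4)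
    (bad : ℕ → ℕ → ℕ → ℕ → ℕ → ℕ → ℕ → ℕ → Bool) (c : Fin n → ℕ) (e : Fin n → Fin n → Fin n → ℕ)
    (hb : ∀ x y u w,
      bad (c x) (c y) (c u) (c w) (e x y u) (e x y w) (e x u w) (e y u w) = true →
        ({x, y, u, w} : Finset (Fin n)) ∈ B) :
    ∑ x, ∑ y, ∑ u, ∑ w, bi bad c e x y u w ≤ 256 * B.card := by
  refine quad_sum_le B hB _ fun x y u w => ?_
  unfold bi
  rcases hbd : bad (c x) (c y) (c u) (c w) (e x y u) (e x y w) (e x u w) (e y u w) with _ | _
  · exact Nat.zero_le _
  · rw [if_pos (hb x y u w hbd)]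
    exact le_rfl

end Pool.Agent.K3h63.QC
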